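import Pool.Agent.Y828.CM.Main

/-!
# The `C^r` closing lemma for `f × g`, `f` arbitrary, `g` a circle diffeomorphism which is not mode-locked

`V n = ℝⁿ`, `DiffM n N r = Diff^r(N)`, `strongTop n N r` is its strong (Whitney) `C^r` topology (the
usual one, `N` being compact), `IsPer G z`: `z` is periodic (`Pool/Agent/H718R2/G0.lean`).
`CircleDeg1Lift` and `translationNumber` (Poincare's rotation number of a lift) are those of Mathlib.

* `Unlocked g` (`Pool/Agent/Y828/CM/Unlocked.lean`): `g` is not mode-locked, that is, `t = 0` is not an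
  interior point of a plateau of the rotation number in the family `g + t`. This holds for every `g`
  with irrational rotation number (`irrational_unlocked` below), Denjoy counterexamples and
  Liouville numbers included, and for all rotations, the identity included (`rotation_unlocked`).
* `Over n N r F ψ a K g` (`Pool/Agent/Y828/CM/Over.lean`): `ψ` is a smooth flow, `a : N → ℂ` is
  smooth, `K` is invariant under `F` and `ψ`; on `K`: `|a| = 1`, `a (ψ_t y) = e(t) a(y)`
  (`e(t) = exp(2πit)`), and if `a(y) = e(s)` then `a (F y) = e(g s)` and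
  `F (ψ_t y) = ψ_(g(s+t)-g(s)) (F y)`; `g` is a continuous strictly increasing lift. If moreover `ψ_1 = id` on
  `K`, this says that `F` is on `K` a product `f × g`: `K = X × S¹` with `X = K ∩ a⁻¹(1)`, the flow `ψ`
  rotates the second factor and `F (x, s) = (f x, g s)` with `f : X → X` ARBITRARY.
  Outside of `K` the diffeomorphism `F` is arbitrary. For instance `F = f × h` on `M × Q`, `Q` a closed
  manifold of positive dimension, `f` arbitrary, `K = M × C` where `C ⊂ Q` is a smooth invariant circle
  of `h` on which `h` is not mode-locked (for `h = id` every point of `Q` is on such a circle).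
* `OrbNW F ψ K z` (`Pool/Agent/Y828/CM/Main.lean`): the circle through `z = (x, s)` is nonwandering,
  that is, `x` is a nonwandering point of `f`. Nothing is required of `s`.
-/

set_option autoImplicit false

open scoped Manifold ContDiff Topology

namespace Pool.Agent.Results.MP_43af95_an.ArbitraryTimesCircleMap

open Pool.Agent.H718R2.G Pool.Agent.Y828.CM Pool.Agent.TH290.CL

/-- Let `N` be a closed manifold, `1 ≤ r ≤ ∞`, `F ∈ Diff^r(N)` and `z ∈ N`. Suppose that `F` is a `C^r`
limit of diffeomorphisms `F'` (for example `F' = F`) for which `z` lies in a set `K` on which `F'` is a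
product `f × g` of an arbitrary map `f` and a circle homeomorphism `g` which is not mode-locked, and
`z = (x, s)` with `x` nonwandering for `f`. Then the conclusion of the `C^r` closing lemma holds for `F`
at `z`. -/
theorem result {n : ℕ} {N : Type*} [TopologicalSpace N] [T2Space N] [CompactSpace N]
    [ChartedSpace (V n) N] [IsManifold (𝓡 n) ∞ N] (r : ℕ∞) (hr : 1 ≤ r) (F : DiffM n N r) (z : N)
    (h : ∀ U : Set (DiffM n N r), IsOpen[strongTop n N r] U → F ∈ U →
      ∃ (F' : DiffM n N r) (ψ : ℝ → N → N) (a : N → ℂ) (K : Set N) (g : CircleDeg1Lift),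
        F' ∈ U ∧ Over n N r F' ψ a K g ∧ (∀ y ∈ K, ψ 1 y = y) ∧ Unlocked g ∧ z ∈ K ∧
          OrbNW F' ψ K z) :
    ∀ U : Set (DiffM n N r), IsOpen[strongTop n N r] U → F ∈ U → ∃ G ∈ U, IsPer G z := by
  intro U hU hFU
  obtain ⟨F', ψ, a, K, g, hF', hov, hper, hu, hz, hnw⟩ := h U hU hFU
  exact thmD r hr hov hper hu hz hnw U hU hF'

/-- Lifts with irrational rotation number are not mode-locked. -/
theorem irrational_unlocked (g : CircleDeg1Lift) (h : Irrational g.translationNumber) :
    Unlocked g := unlocked_of_irrational h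

/-- Rotations, and in particular the identity, are not mode-locked. -/
theorem rotation_unlocked (g : CircleDeg1Lift) (α : ℝ) (h : ∀ x, g x = x + α) : Unlocked g := by
  intro ε hε
  have key : ∀ t, (sh g t).translationNumber = α + t := by
    intro t
    have e : sh g t = CircleDeg1Lift.translate (Multiplicative.ofAdd (α + t)) := by
      ext x
      rw [sh_apply, h, CircleDeg1Lift.translate_apply]
      ring
    rw [e, CircleDeg1Lift.translationNumber_translate]
  refine ⟨ε / 2, by rw [abs_of_pos (by linarith)]; linarith, ?_⟩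
  have h0 := key 0
  rw [sh_zero] at h0
  rw [key, h0]
  intro hcon
  linarith

/-- Special case: `F = f × g` on `N = M × S¹`, where `f` is an arbitrary diffeomorphism of the closed
manifold `M` and `g` a circle diffeomorphism with irrational rotation number. Here `ψ` is the rotation of
the second factor, `a : N → S¹` the second projection. The conclusion of the `C^r` closing lemma holds at
every `(x, s)` with `x` nonwandering for `f`. -/
theorem product {n : ℕ} {N : Type*} [TopologicalSpace N] [T2Space N] [CompactSpace N]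
    [ChartedSpace (V n) N] [IsManifold (𝓡 n) ∞ N] (r : ℕ∞) (hr : 1 ≤ r) (ψ : ℝ → N → N) (a : N → ℂ)
    (hψ : IsFlow n N ψ) (hψ1 : ∀ y, ψ 1 y = y) (ha : ContMDiff (𝓡 n) 𝓘(ℝ, ℂ) ∞ a)
    (ha1 : ∀ y, ‖a y‖ = 1) (haψ : ∀ t y, a (ψ t y) = Complex.exp (2 * Real.pi * Complex.I * (t : ℝ)) * a y)
    (g : CircleDeg1Lift) (hc : Continuous g) (hm : StrictMono g)
    (hirr : Irrational g.translationNumber) (F : DiffM n N r)
    (haF : ∀ y (s : ℝ), a y = Complex.exp (2 * Real.pi * Complex.I * (s : ℝ)) →
      a (F y) = Complex.exp (2 * Real.pi * Complex.I * (g s : ℝ)) ∧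
        ∀ t, F (ψ t y) = ψ (g (s + t) - g s) (F y))
    (z : N) (hz : ∀ W ∈ 𝓝 z, ∃ m : ℕ, 1 ≤ m ∧ ∃ y ∈ W, ∃ t : ℝ, ψ t (F^[m] y) ∈ W) :
    ∀ U : Set (DiffM n N r), IsOpen[strongTop n N r] U → F ∈ U → ∃ G ∈ U, IsPer G z := by
  have hov : Over n N r F ψ a Set.univ g :=
    { flow := hψ
      smooth := ha
      cont := hc
      mono := hm
      inv := fun _ _ => Set.mem_univ _
      invψ := fun _ _ _ => Set.mem_univ _
      norm := fun y _ => ha1 y
      eigψ := fun y _ t => haψ t y
      eigF := fun y _ s hs => (haF y s hs).1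
      fib := fun y _ s t hs => (haF y s hs).2 t }
  refine result r hr F z fun U _ hFU => ⟨F, ψ, a, Set.univ, g, hFU, hov, fun y _ => hψ1 y,
    unlocked_of_irrational hirr, Set.mem_univ _, fun W hW => ?_⟩
  obtain ⟨m, h1, y, hy, t, ht⟩ := hz W hW
  exact ⟨m, h1, y, hy, Set.mem_univ _, t, ht⟩

end Pool.Agent.Results.MP_43af95_an.ArbitraryTimesCircleMap
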